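import Mathlib
import Pool.Agent.H.MP_135240_an.A

set_option autoImplicit false

namespace Pool.Agent.Results.MP_135240_an.No

open MeasureTheory Filter Topology Metric

theorem result : ∃ (X : Type) (_ : MetricSpace X) (_ : MeasurableSpace X) (_ : BorelSpace X) (μ : Measure X)
    (_ : IsProbabilityMeasure μ) (T : X → X) (f : X → ℝ),
    (∀ x r, 0 < r → 0 < μ (ball x r)) ∧
    (∃ C : ℝ, 1 ≤ C ∧ ∀ g : X → ℝ, Integrable g μ → ∀ ε : ℝ, 0 < ε →
      μ {x | ENNReal.ofReal ε ≤ ⨆ (r : ℝ) (_ : 0 < r), (∫⁻ y in ball x r, ‖g y‖ₑ ∂μ) / μ (ball x r)} ≤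
        ENNReal.ofReal (C * (∫ y, ‖g y‖ ∂μ) / ε)) ∧
    MeasurePreserving T μ μ ∧ Integrable f μ ∧
    ∀ (x : X) (L : ℝ), ¬Tendsto (fun q : ℝ × ℕ => ⨍ y in ball x q.1, birkhoffAverage ℝ T f q.2 y ∂μ)
      (𝓝[>] 0 ×ˢ atTop) (𝓝 L) := by
  open Pool.Agent.H.MP_135240_an in
  refine ⟨O, ms, inferInstance, Pi.borelSpace, P, inferInstance, T, fun x => (F x).toReal, fun x _ => pos x,
    ⟨2, one_le_two, fun g a _ b => hl g b a⟩, mp, ig, fun x L h => ?_⟩
  choose k a b using big x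
  have c := h.comp ((tendsto_pow_atTop_nhdsWithin_zero_of_lt_one one_half_pos one_half_lt_one).prodMk
    (tendsto_atTop_mono a tendsto_id))
  refine not_tendsto_nhds_of_tendsto_atTop (tendsto_atTop_mono (f := fun m : ℕ => (2 : ℝ) ^ m / 4) (fun m => ?_)
    ((tendsto_pow_atTop_atTop_of_one_lt one_lt_two).atTop_div_const four_pos)) L c
  rw [Function.comp_apply]
  exact b m

end Pool.Agent.Results.MP_135240_an.No
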